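import Pool.Agent.H89.FM.Targets2

/-!
# Row QCB of the board fmo_modules: the metric with complex parameters
-/

set_option autoImplicit false

namespace Pool.Agent.H78.FM

open Pool.Agent.H31.CN Pool.Agent.H89.FM

theorem qcb_real (T ρ x0 a y0 b v1 v2 qr qi : ℝ) (hT : 1 ≤ T) (hρ : 0 < ρ) (h1 : |x0| < 10 * ρ)
    (h2 : ρ / 10 < y0) (h3 : y0 < 10 * ρ) (h4 : 2000 * T * |a| < ρ) (h5 : 2000 * T * |b| < ρ)
    (hv : v1 ≠ 0 ∨ v2 ≠ 0)
    (e1 : 2 * (qr * y0 - qi * b) =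
      (v1 + v2 * x0) ^ 2 - (v2 * a) ^ 2 + ((v2 * y0) ^ 2 - (v2 * b) ^ 2))
    (e2 : 2 * (qr * b + qi * y0) = 2 * (v1 + v2 * x0) * (v2 * a) + 2 * (v2 * y0) * (v2 * b)) :
    0 < qr ∧ 10 * T * |qi| ≤ qr ∧ 1 / 500000 * (v1 ^ 2 / ρ + ρ * v2 ^ 2) ≤ qr ∧
      qr ≤ 4000 * (v1 ^ 2 / ρ + ρ * v2 ^ 2) := by
  have hy0 : 0 < y0 := by linarith
  have hT0 : 0 < T := by linarith
  obtain ⟨X, hX⟩ : ∃ X, X = v1 + v2 * x0 := ⟨_, rfl⟩
  obtain ⟨Z, hZ⟩ : ∃ Z, Z = v2 * y0 := ⟨_, rfl⟩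
  obtain ⟨N, hN⟩ : ∃ N, N = X ^ 2 + Z ^ 2 := ⟨_, rfl⟩
  obtain ⟨S, hS⟩ : ∃ S, S = y0 ^ 2 + b ^ 2 := ⟨_, rfl⟩
  obtain ⟨α, hα⟩ : ∃ α, α = v2 * a := ⟨_, rfl⟩
  obtain ⟨β, hβ⟩ : ∃ β, β = v2 * b := ⟨_, rfl⟩
  obtain ⟨P, hP⟩ : ∃ P, P = X ^ 2 - α ^ 2 + (Z ^ 2 - β ^ 2) := ⟨_, rfl⟩
  obtain ⟨R, hR⟩ : ∃ R, R = 2 * X * α + 2 * Z * β := ⟨_, rfl⟩
  rw [← hX, ← hZ, ← hα, ← hβ, ← hP] at e1
  rw [← hX, ← hZ, ← hα, ← hβ, ← hR] at e2
  have hqr : 2 * qr * S = P * y0 + R * b := by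
    rw [hS]; linear_combination y0 * e1 + b * e2
  have hqi : 2 * qi * S = R * y0 - P * b := by
    rw [hS]; linear_combination y0 * e2 - b * e1
  have hN0 : 0 < N := by
    rw [hN]
    by_cases h : v2 = 0
    · have h6 : v1 ≠ 0 := hv.resolve_right fun h7 => h7 h
      have h7 : X = v1 := by rw [hX, h]; ring
      have h8 : 0 < X ^ 2 := by rw [h7]; positivity
      linarith [sq_nonneg Z]
    · have h6 : Z ≠ 0 := by rw [hZ]; exact mul_ne_zero h hy0.ne'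
      have h7 : 0 < Z ^ 2 := by positivity
      linarith [sq_nonneg X]
  -- small parameters
  have ha : T * |a| ≤ y0 / 200 := by linarith
  have hb : T * |b| ≤ y0 / 200 := by linarith
  have hb1 : |b| ≤ y0 / 200 := (le_mul_of_one_le_left (abs_nonneg b) hT).trans hb
  have hα1 : T * |α| ≤ |Z| / 200 := by
    rw [hα, hZ, abs_mul, abs_mul, abs_of_pos hy0]
    calc T * (|v2| * |a|) = |v2| * (T * |a|) := by ring
      _ ≤ |v2| * (y0 / 200) := mul_le_mul_of_nonneg_left ha (abs_nonneg _)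
      _ = |v2| * y0 / 200 := by ring
  have hβ1 : T * |β| ≤ |Z| / 200 := by
    rw [hβ, hZ, abs_mul, abs_mul, abs_of_pos hy0]
    calc T * (|v2| * |b|) = |v2| * (T * |b|) := by ring
      _ ≤ |v2| * (y0 / 200) := mul_le_mul_of_nonneg_left hb (abs_nonneg _)
      _ = |v2| * y0 / 200 := by ring
  have hα2 : |α| ≤ |Z| / 200 := (le_mul_of_one_le_left (abs_nonneg α) hT).trans hα1
  have hβ2 : |β| ≤ |Z| / 200 := (le_mul_of_one_le_left (abs_nonneg β) hT).trans hβ1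
  have hα3 : α ^ 2 ≤ N / 40000 := by
    have h6 : α ^ 2 ≤ (|Z| / 200) ^ 2 := by
      rw [← sq_abs α]
      exact pow_le_pow_left₀ (abs_nonneg _) hα2 2
    rw [div_pow, sq_abs] at h6
    rw [hN]
    linarith [sq_nonneg X]
  have hβ3 : β ^ 2 ≤ N / 40000 := by
    have h6 : β ^ 2 ≤ (|Z| / 200) ^ 2 := by
      rw [← sq_abs β]
      exact pow_le_pow_left₀ (abs_nonneg _) hβ2 2
    rw [div_pow, sq_abs] at h6
    rw [hN]
    linarith [sq_nonneg X]
  have hP1 : N - N / 20000 ≤ P := by rw [hP, hN] at *; linarith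
  have hP2 : P ≤ N := by rw [hP, hN]; linarith [sq_nonneg α, sq_nonneg β]
  have hP0 : 0 ≤ P := by linarith
  have hR1 : T * |R| ≤ 3 * N / 200 := by
    have h6 : |R| ≤ 2 * |X| * |α| + 2 * |Z| * |β| := by
      rw [hR]
      refine (abs_add_le _ _).trans (le_of_eq ?_)
      rw [abs_mul, abs_mul, abs_mul, abs_mul, abs_of_pos (by norm_num : (0 : ℝ) < 2)]
    have h7 : T * |R| ≤ 2 * |X| * (T * |α|) + 2 * |Z| * (T * |β|) := by
      calc T * |R| ≤ T * (2 * |X| * |α| + 2 * |Z| * |β|) := mul_le_mul_of_nonneg_left h6 hT0.le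
        _ = _ := by ring
    have h8 : 2 * |X| * (T * |α|) ≤ 2 * |X| * (|Z| / 200) :=
      mul_le_mul_of_nonneg_left hα1 (by positivity)
    have h9 : 2 * |Z| * (T * |β|) ≤ 2 * |Z| * (|Z| / 200) :=
      mul_le_mul_of_nonneg_left hβ1 (by positivity)
    have h10 : |X| ^ 2 + |Z| ^ 2 = N := by rw [sq_abs, sq_abs, hN]
    linarith [sq_nonneg (|X| - |Z|), sq_nonneg |X|]
  have hR2 : |R| ≤ 3 * N / 200 := (le_mul_of_one_le_left (abs_nonneg R) hT).trans hR1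
  have hRb : |R * b| ≤ 3 * (N * y0) / 40000 := by
    rw [abs_mul]
    calc |R| * |b| ≤ (3 * N / 200) * (y0 / 200) :=
          mul_le_mul hR2 hb1 (abs_nonneg _) (by positivity)
      _ = _ := by ring
  have hNy : 0 < N * y0 := mul_pos hN0 hy0
  have hPy1 : (N - N / 20000) * y0 ≤ P * y0 := mul_le_mul_of_nonneg_right hP1 hy0.le
  have hPy2 : P * y0 ≤ N * y0 := mul_le_mul_of_nonneg_right hP2 hy0.le
  have hS1 : y0 ^ 2 ≤ S := by rw [hS]; linarith [sq_nonneg b]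
  have hS0 : 0 < S := lt_of_lt_of_le (by positivity) hS1
  have hS2 : S ≤ 11 / 10 * y0 ^ 2 := by
    rw [hS]
    have h6 : b ^ 2 ≤ (y0 / 200) ^ 2 := by
      rw [← sq_abs b]
      exact pow_le_pow_left₀ (abs_nonneg _) hb1 2
    rw [div_pow] at h6
    linarith [sq_nonneg y0]
  have hq1 : N * y0 * (9 / 10) ≤ 2 * qr * S := by
    rw [hqr]
    have := (abs_le.1 hRb).1
    linarith
  have hq2 : 2 * qr * S ≤ N * y0 * 2 := by
    rw [hqr]
    have := (abs_le.1 hRb).2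
    linarith
  have hqr0 : 0 < qr := by
    by_contra h
    push Not at h
    have : 2 * qr * S ≤ 0 := mul_nonpos_of_nonpos_of_nonneg (by linarith) hS0.le
    linarith
  have hq3 : 10 * T * |qi| ≤ qr := by
    have h6 : T * |2 * qi * S| ≤ 4 * (N * y0) / 200 := by
      rw [hqi]
      have h7 : |R * y0 - P * b| ≤ |R| * y0 + P * |b| := by
        refine (abs_sub _ _).trans (le_of_eq ?_)
        rw [abs_mul, abs_mul, abs_of_pos hy0, abs_of_nonneg hP0]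
      have h8 : T * (|R| * y0 + P * |b|) = (T * |R|) * y0 + P * (T * |b|) := by ring
      have h9 : (T * |R|) * y0 ≤ (3 * N / 200) * y0 := mul_le_mul_of_nonneg_right hR1 hy0.le
      have h10 : P * (T * |b|) ≤ N * (y0 / 200) := by
        refine mul_le_mul hP2 hb (by positivity) hN0.le
      calc T * |R * y0 - P * b| ≤ T * (|R| * y0 + P * |b|) := mul_le_mul_of_nonneg_left h7 hT0.le
        _ = (T * |R|) * y0 + P * (T * |b|) := h8
        _ ≤ (3 * N / 200) * y0 + N * (y0 / 200) := add_le_add h9 h10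
        _ = _ := by ring
    have h7 : |2 * qi * S| = 2 * |qi| * S := by
      rw [abs_mul, abs_mul, abs_of_pos hS0, abs_of_pos (by norm_num : (0 : ℝ) < 2)]
    rw [h7] at h6
    have h8 : (10 * T * |qi|) * (2 * S) ≤ qr * (2 * S) := by linarith
    exact le_of_mul_le_mul_right h8 (by positivity)
  have hsx : x0 ^ 2 ≤ 100 * ρ ^ 2 := by
    rw [← sq_abs x0]
    calc |x0| ^ 2 ≤ (10 * ρ) ^ 2 := pow_le_pow_left₀ (abs_nonneg _) h1.le 2
      _ = _ := by ring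
  have hvx : v2 ^ 2 * x0 ^ 2 ≤ v2 ^ 2 * (100 * ρ ^ 2) := mul_le_mul_of_nonneg_left hsx (sq_nonneg _)
  refine ⟨hqr0, hq3, ?_, ?_⟩
  · -- lower bound
    have h6 : v2 ^ 2 * ρ ^ 2 ≤ 100 * Z ^ 2 := by
      rw [hZ]
      have h7 : ρ ^ 2 ≤ 100 * y0 ^ 2 := by
        have := pow_le_pow_left₀ hρ.le (by linarith : ρ ≤ 10 * y0) 2
        rwa [mul_pow, show (10 : ℝ) ^ 2 = 100 by norm_num] at this
      linarith [sq_nonneg v2, mul_le_mul_of_nonneg_left h7 (sq_nonneg v2)]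
    have h8 : v1 ^ 2 ≤ 2 * X ^ 2 + 20000 * Z ^ 2 := by
      have h9 : v1 = X - v2 * x0 := by rw [hX]; ring
      have h10 : v1 ^ 2 ≤ 2 * X ^ 2 + 2 * (v2 ^ 2 * x0 ^ 2) := by
        rw [h9]; linarith [sq_nonneg (X + v2 * x0)]
      linarith
    have h9 : v1 ^ 2 + ρ ^ 2 * v2 ^ 2 ≤ 20100 * N := by rw [hN]; linarith [sq_nonneg X]
    have h10 : v1 ^ 2 / ρ + ρ * v2 ^ 2 = (v1 ^ 2 + ρ ^ 2 * v2 ^ 2) / ρ := by field_simp
    have h11 : (v1 ^ 2 + ρ ^ 2 * v2 ^ 2) / ρ ≤ 201000 * N / y0 := by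
      rw [div_le_div_iff₀ hρ hy0]
      have h12 : (v1 ^ 2 + ρ ^ 2 * v2 ^ 2) * y0 ≤ (20100 * N) * y0 :=
        mul_le_mul_of_nonneg_right h9 hy0.le
      linarith [mul_lt_mul_of_pos_left h3 hN0]
    rw [h10]
    have h12 : N * (9 / 10) ≤ 11 / 5 * qr * y0 := by
      have h13 : 2 * qr * S ≤ 2 * qr * (11 / 10 * y0 ^ 2) :=
        mul_le_mul_of_nonneg_left hS2 (by positivity)
      have h14 : (N * (9 / 10)) * y0 ≤ (11 / 5 * qr * y0) * y0 := by
        calc (N * (9 / 10)) * y0 = N * y0 * (9 / 10) := by ring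
          _ ≤ 2 * qr * S := hq1
          _ ≤ 2 * qr * (11 / 10 * y0 ^ 2) := h13
          _ = _ := by ring
      exact le_of_mul_le_mul_right h14 hy0
    have h16 : 1 / 500000 * (201000 * N / y0) ≤ qr := by
      have h17 : 201000 * N / y0 ≤ 500000 * qr := by
        rw [div_le_iff₀ hy0]
        linarith
      linarith
    calc 1 / 500000 * ((v1 ^ 2 + ρ ^ 2 * v2 ^ 2) / ρ) ≤ 1 / 500000 * (201000 * N / y0) :=
          mul_le_mul_of_nonneg_left h11 (by norm_num)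
      _ ≤ qr := h16
  · -- upper bound
    have h6 : Z ^ 2 ≤ 100 * ρ ^ 2 * v2 ^ 2 := by
      rw [hZ]
      have h7 : y0 ^ 2 ≤ 100 * ρ ^ 2 := by
        have := pow_le_pow_left₀ hy0.le h3.le 2
        rwa [mul_pow, show (10 : ℝ) ^ 2 = 100 by norm_num] at this
      linarith [mul_le_mul_of_nonneg_left h7 (sq_nonneg v2)]
    have h8 : X ^ 2 ≤ 2 * v1 ^ 2 + 200 * ρ ^ 2 * v2 ^ 2 := by
      have h10 : X ^ 2 ≤ 2 * v1 ^ 2 + 2 * (v2 ^ 2 * x0 ^ 2) := by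
        rw [hX]; linarith [sq_nonneg (v1 - v2 * x0)]
      linarith
    have h9 : N ≤ 300 * (v1 ^ 2 + ρ ^ 2 * v2 ^ 2) := by rw [hN]; linarith [sq_nonneg v1]
    have h10 : v1 ^ 2 / ρ + ρ * v2 ^ 2 = (v1 ^ 2 + ρ ^ 2 * v2 ^ 2) / ρ := by field_simp
    rw [h10, ← mul_div_assoc, le_div_iff₀ hρ]
    have h11 : qr * y0 ≤ N := by
      have h13 : 2 * qr * y0 ^ 2 ≤ 2 * qr * S := mul_le_mul_of_nonneg_left hS1 (by positivity)
      have h14 : (qr * y0) * y0 ≤ N * y0 := by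
        have h15 : (qr * y0) * y0 = (2 * qr * y0 ^ 2) / 2 := by ring
        rw [h15]
        linarith
      exact le_of_mul_le_mul_right h14 hy0
    have h12 : qr * ρ ≤ 10 * N := by
      have h15 : qr * ρ ≤ qr * (10 * y0) := mul_le_mul_of_nonneg_left (by linarith) hqr0.le
      linarith
    linarith

theorem pf_QCB : T_QCB := by
  refine ⟨1 / 500000, 4000, by norm_num, by norm_num, by norm_num, ?_⟩
  rintro ρ t x y v hρ ⟨h1, h2, h3, h4, h5⟩ hv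
  have hy0 : 0 < y.re := by linarith
  have hy : y ≠ 0 := by
    intro h
    rw [h] at hy0
    simp at hy0
  have hq : qc x y v * (2 * y) = ((v.1 : ℂ) + v.2 * x) ^ 2 + ((v.2 : ℂ) * y) ^ 2 := by
    unfold qc
    field_simp
  have hre := congrArg Complex.re hq
  have him := congrArg Complex.im hq
  simp only [Complex.mul_re, Complex.mul_im, Complex.add_re, Complex.add_im, Complex.intCast_re,
    Complex.intCast_im, pow_two, Complex.re_ofNat, Complex.im_ofNat] at hre him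
  have hv' : (v.1 : ℝ) ≠ 0 ∨ (v.2 : ℝ) ≠ 0 := by
    by_contra h
    push Not at h
    apply hv
    have h6 : v.1 = 0 := by exact_mod_cast h.1
    have h7 : v.2 = 0 := by exact_mod_cast h.2
    exact Prod.ext h6 h7
  have h := qcb_real (1 + |t|) ρ x.re x.im y.re y.im v.1 v.2 (qc x y v).re (qc x y v).im
    (by linarith [abs_nonneg t]) hρ h1 h2 h3 h4 h5 hv'
    (by linear_combination hre) (by linear_combination him)
  exact h

end Pool.Agent.H78.FM
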