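import Pool.Agent.H89.FM.Targets2
import Pool.Agent.H34.AG.VRM

/-!
# Row RAM of the board fmo_modules: the expansion in additive characters
-/

set_option autoImplicit false

namespace Pool.Agent.H78.FM

open Finset Pool.Agent.H31.CN Pool.Agent.H89.FM

/-- the function `e` if `e ∣ a`, `0` otherwise -/
noncomputable def ramG (a : ℤ) : ArithmeticFunction ℂ :=
  ⟨fun e => if (e : ℤ) ∣ a then (e : ℂ) else 0, by simp⟩

theorem ramG_apply (a : ℤ) (e : ℕ) : ramG a e = if (e : ℤ) ∣ a then (e : ℂ) else 0 := rfl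

theorem ramG_mult (a : ℤ) : (ramG a).IsMultiplicative := by
  rw [ArithmeticFunction.IsMultiplicative.iff_ne_zero]
  refine ⟨by simp [ramG_apply], ?_⟩
  intro m n _ _ h
  rw [ramG_apply, ramG_apply, ramG_apply]
  have hc : IsCoprime (m : ℤ) (n : ℤ) := Nat.isCoprime_iff_coprime.2 h
  have h1 : ((m * n : ℕ) : ℤ) ∣ a ↔ (m : ℤ) ∣ a ∧ (n : ℤ) ∣ a := by
    push_cast
    constructor
    · intro h2
      exact ⟨(Dvd.intro _ rfl).trans h2, (Dvd.intro_left _ rfl).trans h2⟩
    · rintro ⟨h2, h3⟩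
      exact hc.mul_dvd h2 h3
  by_cases hm : (m : ℤ) ∣ a
  · by_cases hn : (n : ℤ) ∣ a
    · rw [if_pos hm, if_pos hn, if_pos (h1.2 ⟨hm, hn⟩)]
      push_cast
      ring
    · rw [if_neg hn, mul_zero, if_neg fun h2 => hn (h1.1 h2).2]
  · rw [if_neg hm, zero_mul, if_neg fun h2 => hm (h1.1 h2).1]

/-- the geometric sum of the roots of unity -/
theorem ram_geom (a : ℤ) (e : ℕ) (he : 0 < e) :
    ∑ j ∈ range e, Complex.exp (2 * Real.pi * ((a : ℂ) / e) * Complex.I) ^ j = ramG a e := by
  have he' : (e : ℂ) ≠ 0 := by exact_mod_cast he.ne'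
  rw [ramG_apply]
  split_ifs with h
  · obtain ⟨b, rfl⟩ := h
    have h1 : Complex.exp (2 * Real.pi * ((((e : ℤ) * b : ℤ) : ℂ) / e) * Complex.I) = 1 := by
      rw [Complex.exp_eq_one_iff]
      refine ⟨b, ?_⟩
      push_cast
      field_simp
    rw [h1]
    simp
  · have h1 : Complex.exp (2 * Real.pi * ((a : ℂ) / e) * Complex.I) ≠ 1 := by
      intro h2
      rw [Complex.exp_eq_one_iff] at h2
      obtain ⟨b, hb⟩ := h2
      apply h
      refine ⟨b, ?_⟩
      have h3 : (2 * Real.pi * Complex.I : ℂ) ≠ 0 := Complex.two_pi_I_ne_zero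
      have h4 : (2 * Real.pi * Complex.I : ℂ) * ((a : ℂ) / e) = (2 * Real.pi * Complex.I) * b := by
        linear_combination hb
      have h5 := mul_left_cancel₀ h3 h4
      rw [div_eq_iff he'] at h5
      have h6 : (a : ℂ) = (((e : ℤ) * b : ℤ) : ℂ) := by
        rw [h5]
        push_cast
        ring
      exact_mod_cast h6
    rw [geom_sum_eq h1]
    have h2 : Complex.exp (2 * Real.pi * ((a : ℂ) / e) * Complex.I) ^ e = 1 := by
      rw [← Complex.exp_nat_mul, Complex.exp_eq_one_iff]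
      refine ⟨a, ?_⟩
      field_simp
    rw [h2, sub_self, zero_div]

theorem ram_key (n : ℕ) (a : ℤ) (hn : Squarefree n) :
    ∑ j ∈ (range n).filter (fun j => Nat.Coprime j n),
      Complex.exp (2 * Real.pi * ((a : ℂ) / n) * Complex.I) ^ j =
      ∏ p ∈ n.primeFactors, (if (p : ℤ) ∣ a then (p : ℂ) - 1 else -1) := by
  have hn0 : 0 < n := Nat.pos_of_ne_zero hn.ne_zero
  rw [Pool.Agent.H34.AG.vrm_expand n hn0]
  have h1 : ∀ d ∈ n.divisors, (ArithmeticFunction.moebius d : ℂ) *
      ∑ j ∈ range (n / d), (Complex.exp (2 * Real.pi * ((a : ℂ) / n) * Complex.I) ^ d) ^ j =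
      (ArithmeticFunction.moebius d : ℂ) * ramG a (n / d) := by
    intro d hd
    have hd1 : d ∣ n := (Nat.mem_divisors.1 hd).1
    have hd2 : 0 < d := Nat.pos_of_dvd_of_pos hd1 hn0
    have he : 0 < n / d := Nat.div_pos (Nat.le_of_dvd hn0 hd1) hd2
    congr 1
    rw [← ram_geom a (n / d) he]
    refine sum_congr rfl fun j _ => ?_
    congr 1
    rw [← Complex.exp_nat_mul]
    congr 1
    rw [Nat.cast_div hd1 (by exact_mod_cast hd2.ne')]
    have h2 : (n : ℂ) ≠ 0 := by exact_mod_cast hn0.ne'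
    have h3 : (d : ℂ) ≠ 0 := by exact_mod_cast hd2.ne'
    field_simp
  rw [sum_congr rfl h1]
  have hmu : ((ArithmeticFunction.moebius : ArithmeticFunction ℤ) :
      ArithmeticFunction ℂ).IsMultiplicative :=
    ArithmeticFunction.isMultiplicative_moebius.intCast
  have hf := hmu.mul (ramG_mult a)
  have h2 : ∑ d ∈ n.divisors, (ArithmeticFunction.moebius d : ℂ) * ramG a (n / d) =
      (((ArithmeticFunction.moebius : ArithmeticFunction ℤ) : ArithmeticFunction ℂ) * ramG a) n := by
    rw [ArithmeticFunction.mul_apply, Nat.sum_divisorsAntidiagonal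
      (f := fun x y => ((ArithmeticFunction.moebius : ArithmeticFunction ℤ) :
        ArithmeticFunction ℂ) x * ramG a y)]
    rfl
  rw [h2]
  conv_lhs => rw [← Nat.prod_primeFactors_of_squarefree hn]
  rw [hf.map_prod_of_subset_primeFactors n n.primeFactors (Subset.refl _)]
  refine prod_congr rfl fun p hp => ?_
  have hp' : p.Prime := Nat.prime_of_mem_primeFactors hp
  rw [ArithmeticFunction.mul_apply, Nat.sum_divisorsAntidiagonal
      (f := fun x y => ((ArithmeticFunction.moebius : ArithmeticFunction ℤ) :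
        ArithmeticFunction ℂ) x * ramG a y), hp'.sum_divisors]
  simp only [ArithmeticFunction.intCoe_apply, ArithmeticFunction.moebius_apply_prime hp',
    Nat.div_self hp'.pos, Nat.div_one, ramG_apply, ArithmeticFunction.moebius_apply_one]
  have h1a : ((1 : ℕ) : ℤ) ∣ a := by simp
  rw [if_pos h1a]
  split_ifs <;> push_cast <;> ring

theorem pf_RAM (hDVP : T_DVP) : T_RAM := by
  intro n u Q hn hu
  have hn0 : 0 < n := Nat.pos_of_ne_zero hn.ne_zero
  have h1 : ∀ j : ℕ, ee Q (((j : ℝ) / n) • sq2 u) =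
      Complex.exp (2 * Real.pi * ((val Q u : ℂ) / n) * Complex.I) ^ j := by
    intro j
    unfold ee
    rw [← Complex.exp_nat_mul]
    congr 1
    simp only [sq2, Prod.smul_mk, smul_eq_mul, Pool.Agent.H31.CN.val]
    push_cast
    ring
  rw [sum_congr rfl fun j _ => h1 j, ram_key n (val Q u) hn]
  unfold Rn
  push_cast
  refine prod_congr rfl fun p hp => ?_
  have h2 := hDVP n p u Q hn0 (Nat.prime_of_mem_primeFactors hp) (Nat.dvd_of_mem_primeFactors hp) hu
  by_cases h3 : (p : ℤ) ∣ val Q u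
  · rw [if_pos h3, if_pos (h2.2 h3)]
    push_cast
    ring
  · rw [if_neg h3, if_neg fun h => h3 (h2.1 h)]
    push_cast
    ring

end Pool.Agent.H78.FM
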